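import Pool.Agent.H221Z.CV6

set_option autoImplicit false

open Pool.Agent.H221Z.CV
open scoped ContDiff

/-- Genus two, G the restriction of scalars from Q(√2) to Q of SO_3. There is a nonempty invariant
Zariski-open set Ω of representations, on which G(R) acts freely and whose quotient is a smooth
12-manifold (an open subset of R¹², with smooth projection and smooth global section), such that
no representation in Ω is conjugate into G(Q). -/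
theorem Pool.Agent.Results.MP_f64102_gt.ANoRationalPoints.result :
    ∃ Ω : Set Rep, IsZariskiOpen Ω ∧ (∀ ρ ∈ Ω, ∀ ρ', Conj ρ ρ' → ρ' ∈ Ω) ∧
    Ω.Nonempty ∧
    (∀ ρ ∈ Ω, ∀ g : GR, (∀ i, g * ρ.1 i * g⁻¹ = ρ.1 i) → g = 1) ∧
    (∃ φ : Orbits Ω → (Fin 12 → ℝ), Topology.IsOpenEmbedding φ ∧
      (∃ Φ : (Idx → ℝ) → (Fin 12 → ℝ), ∀ ρ : Ω,
        ContDiffAt ℝ ∞ Φ (coord ρ.1) ∧ φ (Quot.mk _ ρ) = Φ (coord ρ.1)) ∧
      (∃ σ : (Fin 12 → ℝ) → (Idx → ℝ), ∀ y ∈ Set.range φ,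
        ContDiffAt ℝ ∞ σ y ∧ ∃ ρ : Ω, coord ρ.1 = σ y ∧ φ (Quot.mk _ ρ) = y)) ∧
    ∀ ρ ∈ Ω, ¬ ∃ g : GR, ∀ i, g * ρ.1 i * g⁻¹ ∈ GQ :=
  Pool.Agent.H221Z.CV.main
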